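import Pool.Agent.N783.CF.WR
import Pool.Agent.H884R2.Sko.Split

/-!
# Infinitely many primes `q ≡ 1 mod 8` split completely (helper545 for helper783)
-/

set_option autoImplicit false

open Polynomial NumberField

namespace Pool.Agent.N545.WR

/-- An element of a domain of characteristic `q` which is a root of a monic integer polynomial
splitting modulo `q` is fixed by the Frobenius map. -/
theorem frob_fix {k : Type} [CommRing k] [IsDomain k] (q : ℕ) [Fact q.Prime] [CharP k q]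
    (P : ℤ[X]) (hP : P.Monic) (hs : (P.map (Int.castRingHom (ZMod q))).Splits) (b : k)
    (hb : P.eval₂ (Int.castRingHom k) b = 0) : b ^ q = b := by
  set fq : (ZMod q)[X] := P.map (Int.castRingHom (ZMod q)) with hfq
  have hm : fq.Monic := hP.map _
  let ι : ZMod q →+* k := ZMod.castHom (dvd_refl q) k
  have h2 : eval₂ ι b fq = 0 := by
    rw [hfq, eval₂_map]
    have : ι.comp (Int.castRingHom (ZMod q)) = Int.castRingHom k := RingHom.ext_int _ _
    rw [this]
    exact hb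
  have h1 : fq = (fq.roots.map (fun a => X - C a)).prod := hs.eq_prod_roots_of_monic hm
  rw [h1, eval₂_multiset_prod, Multiset.map_map, Multiset.prod_eq_zero_iff] at h2
  rw [Multiset.mem_map] at h2
  obtain ⟨r, -, hr⟩ := h2
  have hbr : b = ι r := by
    have : eval₂ ι b (X - C r) = 0 := hr
    rw [eval₂_sub, eval₂_X, eval₂_C] at this
    exact sub_eq_zero.1 this
  rw [hbr, ← map_pow, ZMod.pow_card]

theorem spl_of_split (F : Type) [Field F] [NumberField F] (q : ℕ) (hq : q.Prime)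
    (hs : ∀ i, ((minpoly ℤ (RingOfIntegers.basis F i)).map (Int.castRingHom (ZMod q))).Splits) :
    Pool.Agent.N783.CF.Spl F q := by
  intro 𝔭 h𝔭 hq𝔭 a
  have := h𝔭
  have : Fact q.Prime := ⟨hq⟩
  have hq0 : ((q : ℕ) : 𝓞 F ⧸ 𝔭) = 0 := by
    have : (Ideal.Quotient.mk 𝔭) (q : 𝓞 F) = 0 := Ideal.Quotient.eq_zero_iff_mem.2 hq𝔭
    rwa [map_natCast] at this
  have : CharP (𝓞 F ⧸ 𝔭) q := (CharP.charP_iff_prime_eq_zero hq).2 hq0
  let φ : 𝓞 F →+* 𝓞 F ⧸ 𝔭 := (frobenius (𝓞 F ⧸ 𝔭) q).comp (Ideal.Quotient.mk 𝔭)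
  let ψ : 𝓞 F →+* 𝓞 F ⧸ 𝔭 := Ideal.Quotient.mk 𝔭
  have hlin : φ.toAddMonoidHom.toIntLinearMap = ψ.toAddMonoidHom.toIntLinearMap := by
    apply (RingOfIntegers.basis F).ext
    intro i
    show (Ideal.Quotient.mk 𝔭 (RingOfIntegers.basis F i)) ^ q =
      Ideal.Quotient.mk 𝔭 (RingOfIntegers.basis F i)
    refine frob_fix q (minpoly ℤ (RingOfIntegers.basis F i)) ?_ (hs i) _ ?_
    · exact minpoly.monic (Algebra.IsIntegral.isIntegral _)
    · have h0 : (minpoly ℤ (RingOfIntegers.basis F i)).eval₂ (algebraMap ℤ (𝓞 F))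
          (RingOfIntegers.basis F i) = 0 := minpoly.aeval ℤ _
      have h1 := congrArg (Ideal.Quotient.mk 𝔭) h0
      rw [hom_eval₂, map_zero] at h1
      have h2 : (Ideal.Quotient.mk 𝔭).comp (algebraMap ℤ (𝓞 F)) = Int.castRingHom _ :=
        RingHom.ext_int _ _
      rwa [h2] at h1
  have h1 : φ a = ψ a := by
    have := LinearMap.congr_fun hlin a
    exact this
  have h2 : (Ideal.Quotient.mk 𝔭) (a ^ q - a) = 0 := by
    rw [map_sub, map_pow, sub_eq_zero]
    exact h1
  exact Ideal.Quotient.eq_zero_iff_mem.1 h2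

theorem mod8 (q : ℕ) (hq : q.Prime) (h2 : 2 < q)
    (hs : ((X ^ 4 + 1 : ℤ[X]).map (Int.castRingHom (ZMod q))).Splits) : q % 8 = 1 := by
  have : Fact q.Prime := ⟨hq⟩
  have hmap : (X ^ 4 + 1 : ℤ[X]).map (Int.castRingHom (ZMod q)) = (X ^ 4 + C 1 : (ZMod q)[X]) := by
    simp
  rw [hmap] at hs
  have hdeg : (X ^ 4 + C 1 : (ZMod q)[X]).degree ≠ 0 := by
    rw [degree_X_pow_add_C (by norm_num)]
    norm_num
  obtain ⟨z, hz⟩ := hs.exists_eval_eq_zero hdeg
  have hz4 : z ^ 4 = -1 := by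
    rw [eval_add, eval_pow, eval_X, eval_C] at hz
    exact eq_neg_of_add_eq_zero_left hz
  have hne : (-1 : ZMod q) ≠ 1 := by
    have : Fact (2 < q) := ⟨h2⟩
    exact ZMod.neg_one_ne_one
  have hord : orderOf z = 2 ^ (2 + 1) := by
    apply orderOf_eq_prime_pow
    · norm_num
      rw [hz4]
      exact hne
    · norm_num
      have : z ^ 8 = (z ^ 4) ^ 2 := by ring
      rw [this, hz4]
      norm_num
  have hz0 : z ≠ 0 := by
    rintro rfl
    rw [zero_pow (by norm_num)] at hz4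
    have : (1 : ZMod q) = 0 := by
      have h := congrArg Neg.neg hz4
      rw [neg_zero, neg_neg] at h
      exact h.symm
    exact one_ne_zero this
  have hdvd := ZMod.orderOf_dvd_card_sub_one hz0
  rw [hord] at hdvd
  norm_num at hdvd
  omega

theorem t_SPL : Pool.Agent.N783.CF.S_SPL := by
  intro F _ _ W m
  classical
  have hinf : {q : ℕ | q.Prime ∧ W < q ∧ q % 8 = 1 ∧ Pool.Agent.N783.CF.Spl F q}.Infinite := by
    apply Set.infinite_of_forall_exists_gt
    intro N
    set g : ℤ[X] := (X ^ 4 + 1) * ∏ i, minpoly ℤ (RingOfIntegers.basis F i) with hg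
    have hX : (X ^ 4 + 1 : ℤ[X]).Monic := by
      have : (X ^ 4 + 1 : ℤ[X]) = X ^ 4 + C 1 := by simp
      rw [this]
      exact monic_X_pow_add_C 1 (by norm_num)
    have hpm : ∀ i, (minpoly ℤ (RingOfIntegers.basis F i)).Monic := fun i =>
      minpoly.monic (Algebra.IsIntegral.isIntegral _)
    have hgm : g.Monic := hX.mul (monic_prod_of_monic _ _ (fun i _ => hpm i))
    obtain ⟨q, hq, hN, hs⟩ := Pool.Agent.H884R2.Sko.exists_split g hgm (N + W + 2)
    have : Fact q.Prime := ⟨hq⟩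
    have hg0 : g.map (Int.castRingHom (ZMod q)) ≠ 0 := (hgm.map _).ne_zero
    refine ⟨q, ⟨hq, by omega, ?_, ?_⟩, by omega⟩
    · apply mod8 q hq (by omega)
      exact hs.of_dvd hg0 (Polynomial.map_dvd _ (Dvd.intro _ rfl))
    · apply spl_of_split F q hq
      intro i
      refine hs.of_dvd hg0 (Polynomial.map_dvd _ ?_)
      exact Dvd.dvd.mul_left (Finset.dvd_prod_of_mem _ (Finset.mem_univ i)) _
  obtain ⟨S, hS, hc⟩ := hinf.exists_subset_card_eq m
  exact ⟨S, hc, fun q hq => hS hq⟩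

end Pool.Agent.N545.WR
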